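import Pool.Agent.W172.MK.Stm

set_option autoImplicit false

open MeasureTheory ProbabilityTheory Filter Topology

namespace Pool.Agent.W828.MK

open Pool.Agent.W172.MK

theorem ae : P_AE := by
  intro M hM y
  have hU : ∀ c : Fin (M + 1), unif (Fin (M + 1)) {c} = ((M + 1 : ℕ) : ENNReal)⁻¹ := by
    intro c
    simp [unif, Measure.count_singleton]
  have hlt : ((M + 1 : ℕ) : ENNReal)⁻¹ < 1 :=
    ENNReal.inv_lt_one.2 (by exact_mod_cast (by omega : 1 < M + 1))
  have hbox : ∀ N k : ℕ, muSeq M {z | ∀ t, N ≤ t → y t = z t} ≤ (((M + 1 : ℕ) : ENNReal)⁻¹) ^ k := by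
    intro N k
    have h1 : {z : ℕ → Fin (M + 1) | ∀ t, N ≤ t → y t = z t} ⊆
        Set.pi (↑(Finset.Ico N (N + k))) (fun t => ({y t} : Set (Fin (M + 1)))) := by
      intro z hz t ht
      have := (Finset.mem_Ico.1 (Finset.mem_coe.1 ht)).1
      exact (hz t this).symm
    refine (measure_mono h1).trans ?_
    unfold muSeq
    rw [Measure.infinitePi_pi _ (fun i _ => MeasurableSet.singleton _)]
    rw [Finset.prod_congr rfl (fun i _ => hU (y i))]
    simp
  have hz : ∀ N, muSeq M {z | ∀ t, N ≤ t → y t = z t} = 0 := by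
    intro N
    have h := ENNReal.tendsto_pow_atTop_nhds_zero_of_lt_one hlt
    exact le_antisymm (ge_of_tendsto' h (hbox N)) bot_le
  rw [ae_iff]
  refine measure_mono_null ?_ (measure_iUnion_null hz)
  intro z hz'
  simp only [Set.mem_setOf_eq, Filter.not_frequently, not_not, Filter.eventually_atTop] at hz'
  obtain ⟨N, hN⟩ := hz'
  exact Set.mem_iUnion.2 ⟨N, fun t ht => hN t ht⟩

end Pool.Agent.W828.MK
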